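import Pool.Agent.K1H49.PL.Gen

/-!
Project PL (helper49), general case: two lemmas for the extension step.
-/

set_option autoImplicit false

namespace Pool.Agent.K1H65.PLG

open Pool.Agent.K1H49.PL

theorem snoc_prefix {l l' : List Bool} {d : Bool} : (l ++ [d]) <+: l' ↔
    ∃ r, l' = l ++ d :: r := by
  constructor
  · rintro ⟨r, hr⟩
    exact ⟨r, by rw [← hr]; simp⟩
  · rintro ⟨r, rfl⟩
    exact ⟨r, by simp⟩

/-- extension of patterns in the binary tree -/
theorem ext_pat {a N : ℕ} (haN : a ≤ N) (E : LN a → Nd) (hE : Pt ndl a E) :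
    ∃ E2 : LN N → Nd, Pt ndl N E2 ∧ ∀ η : LN a, E2 ⟨η.1, η.2.trans haN⟩ = E η := by
  refine ⟨fun η => E ⟨η.1.take a, List.length_take_le _ _⟩ ++ η.1.drop a, ?_, ?_⟩
  · intro η η' d h
    obtain ⟨r, hr⟩ := snoc_prefix.1 h
    by_cases hlt : η.1.length < a
    · have e1 : η.1.take a = η.1 := List.take_of_length_le hlt.le
      have e2 : η.1.drop a = [] := List.drop_of_length_le hlt.le
      have h2 : ndl d (E ⟨η.1.take a, List.length_take_le _ _⟩)
          (E ⟨η'.1.take a, List.length_take_le _ _⟩) := by
        apply hE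
        show (η.1.take a ++ [d]) <+: η'.1.take a
        rw [e1, hr, snoc_prefix]
        refine ⟨r.take (a - η.1.length - 1), ?_⟩
        rw [List.take_append]
        rw [List.take_of_length_le hlt.le]
        congr 1
        obtain ⟨j, hj⟩ : ∃ j, a - η.1.length = j + 1 := ⟨a - η.1.length - 1, by omega⟩
        rw [hj, List.take_succ_cons]
        simp
      show ((E ⟨η.1.take a, _⟩ ++ η.1.drop a) ++ [d]) <+: (E ⟨η'.1.take a, _⟩ ++ η'.1.drop a)
      rw [e2, List.append_nil]
      exact List.IsPrefix.trans h2 (List.prefix_append _ _)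
    · have hle : a ≤ η.1.length := by omega
      have e1 : η'.1.take a = η.1.take a := by
        rw [hr, List.take_append_of_le_length hle]
      have e2 : η'.1.drop a = η.1.drop a ++ d :: r := by
        rw [hr, List.drop_append_of_le_length hle]
      show ((E ⟨η.1.take a, _⟩ ++ η.1.drop a) ++ [d]) <+: (E ⟨η'.1.take a, _⟩ ++ η'.1.drop a)
      have e3 : (⟨η'.1.take a, List.length_take_le _ _⟩ : LN a) =
          ⟨η.1.take a, List.length_take_le _ _⟩ := Subtype.ext e1
      rw [e3, e2, snoc_prefix]
      exact ⟨r, by simp⟩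
  · intro η
    show E ⟨η.1.take a, _⟩ ++ η.1.drop a = E η
    have e1 : η.1.take a = η.1 := List.take_of_length_le η.2
    have e2 : η.1.drop a = [] := List.drop_of_length_le η.2
    have e3 : (⟨η.1.take a, List.length_take_le _ _⟩ : LN a) = η := Subtype.ext e1
    rw [e3, e2, List.append_nil]

open Classical in
/-- the modified pattern is a pattern -/
theorem mod_pat {I : Type} {lt : Bool → I → I → Prop} (hb : BT lt) (π : I) (C0 C1 : Nd → I)
    (h0 : Cpy lt C0) (h1 : Cpy lt C1) (g0 : ∀ σ, lt false π (C0 σ)) (g1 : ∀ σ, lt true π (C1 σ))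
    {n : ℕ} (E0 : LN n → I) (hE : Pt lt n E0) (e0 e1 : LN n → Nd) (he0 : Pt ndl n e0)
    (he1 : Pt ndl n e1) :
    Pt lt n (fun η => if lt false π (E0 η) then C0 (e0 η) else
      if lt true π (E0 η) then C1 (e1 η) else E0 η) := by
  intro η η' d h
  have hlt := hE η η' d h
  have k0 := h0 _ _ _ (he0 η η' d h)
  have k1 := h1 _ _ _ (he1 η η' d h)
  -- a site outside both cones below a site of the cone `e`
  have key : ∀ (e : Bool) (y : I), lt e π (E0 η') → lt e π y → ¬ lt false π (E0 η) →
      ¬ lt true π (E0 η) → lt d (E0 η) y := by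
    intro e y h2 h3 h4 h5
    rcases hb.lin hlt h2 with h6 | ⟨e', h6⟩ | ⟨e', h6⟩
    · rw [h6] at hlt ⊢
      rw [hb.uniq hlt h2]
      exact h3
    · have h7 := hb.trans h6 h2
      rw [hb.uniq hlt h7]
      exact hb.trans h6 h3
    · cases e'
      · exact absurd h6 h4
      · exact absurd h6 h5
  have up : ∀ e : Bool, lt e π (E0 η) → lt e π (E0 η') := fun e h2 => hb.trans h2 hlt
  show lt d (if lt false π (E0 η) then C0 (e0 η) else
      if lt true π (E0 η) then C1 (e1 η) else E0 η) (if lt false π (E0 η') then C0 (e0 η') else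
      if lt true π (E0 η') then C1 (e1 η') else E0 η')
  by_cases a0 : lt false π (E0 η)
  · rw [if_pos a0, if_pos (up _ a0)]
    exact k0
  · rw [if_neg a0]
    by_cases a1 : lt true π (E0 η)
    · have a1' := up _ a1
      have a0' : ¬ lt false π (E0 η') := fun h2 => by
        have := hb.uniq h2 a1'
        exact absurd this (by decide)
      rw [if_pos a1, if_neg a0', if_pos a1']
      exact k1
    · rw [if_neg a1]
      by_cases b0 : lt false π (E0 η')
      · rw [if_pos b0]
        exact key false _ b0 (g0 _) a0 a1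
      · rw [if_neg b0]
        by_cases b1 : lt true π (E0 η')
        · rw [if_pos b1]
          exact key true _ b1 (g1 _) a0 a1
        · rw [if_neg b1]
          exact hlt

end Pool.Agent.K1H65.PLG
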